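import Mathlib
import Pool.Agent.H17.TwoClass

set_option autoImplicit false
open Filter

namespace Pool.Agent.Results.MP_c34da8_nt.TwoClasses

theorem result (f : ℕ → ℝ) (hf : Tendsto f atTop atTop) :
    ∃ A₁ A₂ : Set ℕ, A₁.Nonempty ∧ A₂.Nonempty ∧ Disjoint A₁ A₂ ∧ A₁ ∪ A₂ = {n | 1 ≤ n} ∧
      liminf (fun M : ℕ =>
        (({n : ℕ | ∃ a a' : ℕ, ((a ∈ A₁ ∧ a' ∈ A₁) ∨ (a ∈ A₂ ∧ a' ∈ A₂)) ∧
          n = a * a' ∧ f n < ((min a a' : ℕ) : ℝ)} ∩ Set.Icc 1 M).ncard : ℝ) / (M : ℝ)) atTop = 0 := by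
  obtain ⟨A₁, A₂, h1, h2, h3, h4, h5⟩ := Pool.Agent.H17.TwoClass.main f hf
  refine ⟨A₁, A₂, h1, h2, h3, h4, ?_⟩
  obtain ⟨u, hu⟩ : ∃ u : ℕ → ℝ, u = fun M : ℕ =>
        (({n : ℕ | ∃ a a' : ℕ, ((a ∈ A₁ ∧ a' ∈ A₁) ∨ (a ∈ A₂ ∧ a' ∈ A₂)) ∧
          n = a * a' ∧ f n < ((min a a' : ℕ) : ℝ)} ∩ Set.Icc 1 M).ncard : ℝ) / (M : ℝ) := ⟨_, rfl⟩
  rw [← hu]
  have u0 : ∀ M, 0 ≤ u M := fun M => by rw [hu]; positivity
  have hfr : ∀ ε : ℝ, 0 < ε → ∃ᶠ M in atTop, u M ≤ ε := by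
    intro ε hε
    rw [frequently_atTop]
    intro a
    obtain ⟨k0, hk0⟩ := exists_nat_ge (2 / ε)
    obtain ⟨M, hM, h⟩ := h5 (a + k0)
    refine ⟨M, by omega, ?_⟩
    have hM0 : (0:ℝ) < M := by exact_mod_cast (by omega : 0 < M)
    rw [hu]
    simp only
    rw [div_le_iff₀ hM0]
    refine h.trans (mul_le_mul_of_nonneg_right ?_ hM0.le)
    rw [div_le_iff₀ hε] at hk0
    rw [div_le_iff₀ (by positivity)]
    push_cast
    have : (0:ℝ) ≤ a := Nat.cast_nonneg a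
    nlinarith
  have hb : IsBoundedUnder (· ≥ ·) atTop u := isBoundedUnder_of ⟨0, u0⟩
  apply le_antisymm
  · refine le_of_forall_pos_le_add fun ε hε => ?_
    rw [zero_add]
    exact liminf_le_of_frequently_le (hfr ε hε) hb
  · exact le_liminf_of_le (IsCoboundedUnder.of_frequently_le (hfr 1 one_pos))
      (Eventually.of_forall u0)

end Pool.Agent.Results.MP_c34da8_nt.TwoClasses
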